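import Mathlib
import Pool.Agent.H.MP_9fddba_co.E

set_option autoImplicit false

namespace Pool.Agent.Results.MP_9fddba_co.Girard

theorem result :
    IsLeast {t : ℕ | 0 < t ∧ ∀ T : Multiset (ZMod 2 × ZMod 2 × ZMod 2 × ZMod 6),
      t ≤ T.card → ∃ U ≤ T, U ≠ 0 ∧ U.sum = 0} 9 ∧
    ∃ S : Multiset (ZMod 2 × ZMod 2 × ZMod 2 × ZMod 6), S.card = 9 + 2 - 1 ∧
      ∀ U ≤ S, U ≠ 0 → U.sum = 0 → U.card ≡ 1 [MOD 2] := by
  refine ⟨⟨⟨by norm_num, ?_⟩, ?_⟩, ?_⟩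
  · intro T hT
    induction T using Quotient.inductionOn with
    | _ l =>
      have hl : 9 ≤ l.length := hT
      obtain ⟨U, hU, h⟩ := Pool.Agent.H.MP_9fddba_co.dav (↑(l.take 9)) (by simp [hl])
      exact ⟨U, hU.trans (Multiset.coe_le.mpr (List.take_sublist 9 l).subperm), h⟩
  · rintro t ⟨_, ht⟩
    by_contra hlt
    obtain ⟨U, hU, h0, hs⟩ := ht {(1, 0, 0, 0), (0, 1, 0, 0), (0, 0, 1, 0), (0, 0, 0, 1),
      (0, 0, 0, 1), (0, 0, 0, 1), (0, 0, 0, 1), (0, 0, 0, 1)} (by simp; omega)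
    rw [← Multiset.mem_powerset] at hU
    revert U
    decide +kernel
  · refine ⟨{(0, 0, 0, 4), (0, 0, 0, 4), (0, 0, 0, 4), (1, 0, 0, 2), (0, 1, 0, 2), (0, 0, 1, 2),
      (1, 1, 1, 2), (0, 0, 0, 5), (1, 1, 0, 5), (1, 0, 1, 5)}, rfl, ?_⟩
    intro U hU
    rw [← Multiset.mem_powerset] at hU
    revert U
    decide +kernel

end Pool.Agent.Results.MP_9fddba_co.Girard
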